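import Mathlib

set_option autoImplicit false

namespace Pool.Agent.Results.MP_433145_co.Max

open Finset Equiv

/-- A strategy: a permutation of `[k]` for each `k`. -/
abbrev Strat := (k : ℕ) → Perm (Fin k)

variable {n : ℕ}

/-- The permutation of positions sending `i_j` to `i_{S[k](j)}` for `I = {i_1 < … < i_k}`. -/
def tr (S : Strat) (I : Finset (Fin n)) : Perm (Fin n) :=
  (S I.card).extendDomain (I.orderIsoOfFin rfl).toEquiv

/-- The next guess: the entry at an incorrect position `i` is placed at position `tr S I i`. -/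
def step (S : Strat) (π γ : Perm (Fin n)) : Perm (Fin n) :=
  γ * (tr S {i | γ i ≠ π i})⁻¹

/-- The number of secrets found after exactly `r + 1` guesses. -/
def cnt (S : Strat) (n r : ℕ) : ℕ :=
  #{π : Perm (Fin n) | (step S π)^[r] 1 = π ∧ ∀ j < r, (step S π)^[j] 1 ≠ π}

def Der (n : ℕ) (S : Strat) : Prop := ∀ k, 2 ≤ k → k ≤ n → ∀ j, S k j ≠ j

variable {S : Strat} {I D E : Finset (Fin n)} {i : Fin n}

lemma tr_out (h : i ∉ I) : tr S I i = i := Perm.extendDomain_apply_not_subtype _ _ h

lemma tr_eq (h : i ∈ I) : tr S I i =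
    I.orderIsoOfFin rfl (S _ ((I.orderIsoOfFin rfl).symm ⟨i, h⟩)) :=
  Perm.extendDomain_apply_subtype _ _ h

lemma tr_mem (h : i ∈ I) : tr S I i ∈ I := by rw [tr_eq h]; exact Subtype.property _

lemma tr_ne (d : Der n S) (k : 2 ≤ #I) (h : i ∈ I) : tr S I i ≠ i := fun e => by
  rw [tr_eq h] at e
  exact d _ k (by simpa using card_le_univ I) _ ((OrderIso.eq_symm_apply _).2 (Subtype.ext e))

lemma cs_der : Der n finRotate := fun k h _ j => by
  obtain ⟨k, rfl⟩ := Nat.exists_eq_add_of_le' h
  simp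

lemma cs (h : i ∈ I) (z : Fin n) (hz : z ∈ I) : (i < tr finRotate I i → z ≤ i ∨ tr finRotate I i ≤ z) ∧
    (tr finRotate I i ≤ i → tr finRotate I i ≤ z ∧ z ≤ i) := by
  rw [tr_eq h]
  obtain ⟨a, ha⟩ := (I.orderIsoOfFin rfl).surjective ⟨i, h⟩
  obtain ⟨b, hb⟩ := (I.orderIsoOfFin rfl).surjective ⟨z, hz⟩
  rw [← ha, OrderIso.symm_apply_apply, show i = I.orderIsoOfFin rfl a from congr($ha.symm.symm.symm.1),
    show z = I.orderIsoOfFin rfl b from congr($hb.symm.1)]
  simp only [Subtype.coe_lt_coe, Subtype.coe_le_coe, OrderIso.lt_iff_lt, OrderIso.le_iff_le]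
  clear ha hb
  generalize #I = k at a b
  cases k with
  | zero => exact a.elim0
  | succ k =>
    have := b.2
    simp only [Fin.lt_def, Fin.le_def, coe_finRotate, Fin.ext_iff, Fin.val_last]
    split_ifs <;> omega

def bad (S : Strat) (D : Finset (Fin n)) : Finset (Finset (Fin n)) :=
  {E ∈ D.powerset | 2 ≤ #E ∧ ∃ i ∈ E, tr S E (tr S D i) = i}

def good (S : Strat) (D : Finset (Fin n)) : Finset (Finset (Fin n)) :=
  {E ∈ D.powerset | 2 ≤ #E ∧ ¬ ∃ i ∈ E, tr S E (tr S D i) = i}

lemma gb : #(good S D) + #(bad S D) = #{E ∈ D.powerset | 2 ≤ #E} := by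
  rw [good, bad, ← filter_filter, ← filter_filter, add_comm, card_filter_add_card_filter_not]

lemma cnt_eq (d : Der n S) : cnt S n 2 = ∑ D : Finset (Fin n), #(good S D) := by
  rw [← card_sigma]
  have inv : ∀ (I : Finset (Fin n)) i, (tr S I)⁻¹ i = i ↔ tr S I i = i := fun I i => by
    rw [Perm.inv_eq_iff_eq, eq_comm]
  refine card_nbij' (fun π => ⟨({i | i ≠ π i} : Finset _),
    ({i | (tr S {i | i ≠ π i})⁻¹ i ≠ π i} : Finset _)⟩)
    (fun p => (tr S p.1)⁻¹ * (tr S p.2)⁻¹) (fun π h => ?_) (fun ⟨D, E⟩ h => ?_) (fun π h => ?_)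
    fun ⟨D, E⟩ h => ?_
  · simp only [coe_filter, mem_univ, true_and, Set.mem_ofPred] at h
    have h1 : (tr S {i | i ≠ π i})⁻¹ * (tr S {i | (tr S {i | i ≠ π i})⁻¹ i ≠ π i})⁻¹ = π := by
      simpa [step] using h.1
    have h2 : (tr S {i | i ≠ π i})⁻¹ ≠ π := by simpa [step] using h.2 1 (by simp)
    simp only [good, coe_sigma, Set.mem_sigma_iff, coe_filter, mem_powerset, Set.mem_ofPred, coe_univ,
      Set.mem_univ, true_and]
    generalize hD : ({i | i ≠ π i} : Finset _) = D at *
    generalize hE : ({i | (tr S D)⁻¹ i ≠ π i} : Finset _) = E at *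
    have mD : ∀ i, i ∈ D ↔ i ≠ π i := by simp [← hD]
    have mE : ∀ i, i ∈ E ↔ (tr S D)⁻¹ i ≠ π i := by simp [← hE]
    have s : E ⊆ D := fun i hi => by
      by_contra k
      exact (mE i).1 hi (((inv D i).2 (tr_out k)).trans (not_not.1 (mt (mD i).2 k)))
    refine ⟨s, ?_, fun ⟨i, hi, e⟩ => (mD i).1 (s hi) ?_⟩
    · obtain ⟨i, hi⟩ := not_forall.1 (mt Equiv.ext h2)
      refine one_lt_card.2 ⟨i, (mE i).2 hi, tr S E i, tr_mem ((mE i).2 hi), fun e => hi ?_⟩
      rw [← h1, Perm.mul_apply, (inv E i).2 e.symm]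
    · rw [← h1, Perm.mul_apply, Perm.eq_inv_iff_eq, Perm.eq_inv_iff_eq, e]
  rotate_left
  · simp only [coe_filter, mem_univ, true_and, Set.mem_ofPred] at h
    simpa [step] using h.1
  all_goals
    simp only [good, coe_sigma, Set.mem_sigma_iff, coe_filter, mem_powerset, Set.mem_ofPred] at h
    obtain ⟨-, s, c, h⟩ := h
    have c2 := c.trans (card_le_card s)
    have h1 : ({i | i ≠ ((tr S D)⁻¹ * (tr S E)⁻¹) i} : Finset _) = D := by
      ext i
      simp only [mem_filter, mem_univ, true_and, Perm.mul_apply, ne_eq, Perm.eq_inv_iff_eq]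
      by_cases a : i ∈ E
      · simpa [s a] using fun e => h ⟨i, a, e⟩
      rw [← Perm.eq_inv_iff_eq, (inv E i).2 (tr_out a)]
      exact ⟨fun k => by_contra fun l => k (tr_out l), tr_ne d c2⟩
    have h2 : ({i | (tr S D)⁻¹ i ≠ ((tr S D)⁻¹ * (tr S E)⁻¹) i} : Finset _) = E := by
      ext i
      simp only [mem_filter, mem_univ, true_and, Perm.mul_apply, ne_eq, EmbeddingLike.apply_eq_iff_eq]
      rw [Perm.eq_inv_iff_eq]
      exact ⟨fun k => by_contra fun l => k (tr_out l), tr_ne d c⟩
  · simp only [h1, h2]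
  · obtain ⟨i, hi⟩ := card_pos.1 (by omega : 0 < #E)
    simp only [coe_filter, mem_univ, true_and, Set.mem_ofPred]
    refine ⟨by simp only [step, Function.iterate_succ, Function.iterate_zero, Function.comp, id,
      Perm.one_apply, one_mul, h1, h2], fun j hj e => ?_⟩
    interval_cases j
    · have e : 1 = (tr S D)⁻¹ * (tr S E)⁻¹ := e
      have := h1 ▸ s hi
      rw [← e] at this
      simp at this
    · have e : (tr S D)⁻¹ = (tr S D)⁻¹ * (tr S E)⁻¹ := by
        simpa only [step, Function.iterate_one, Perm.one_apply, one_mul, h1] using e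
      have := h2 ▸ hi
      simp [← e] at this

lemma bad_le (d : Der n S) : #(bad finRotate D) ≤ #(bad S D) := by
  rcases le_or_gt #D 2 with h | h
  · refine card_le_card fun E hE => ?_
    simp only [bad, mem_filter, mem_powerset] at hE ⊢
    obtain ⟨s, c, i, hi, -⟩ := hE
    obtain rfl := eq_of_subset_of_card_le s (h.trans c)
    refine ⟨s, c, i, hi, by_contra fun k => ?_⟩
    have := card_le_card (show {i, tr S E i, tr S E (tr S E i)} ⊆ E by
      simp [insert_subset_iff, tr_mem, hi])
    rw [card_eq_three.2 ⟨_, _, _, (tr_ne d c hi).symm, Ne.symm k, (tr_ne d c (tr_mem hi)).symm, rfl⟩]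
      at this
    omega
  have c : 2 ≤ #D := h.le
  trans #D
  · refine (card_le_card fun E hE => ?_).trans (card_image_le (f := fun i => {i, tr finRotate D i}))
    simp only [bad, mem_filter, mem_powerset] at hE
    obtain ⟨s, c2, i, hi, e⟩ := hE
    have a := tr_ne cs_der c (s hi)
    have b : tr finRotate D i ∈ E := by_contra fun k => a ((tr_out k).symm.trans e)
    refine mem_image.2 ⟨i, s hi, ?_⟩
    ext z
    have := fun hz => cs (s hi) z (s hz)
    have := cs b z
    rw [e] at this
    grind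
  have : ∀ i, ∃ x ∈ D, x ≠ i ∧ x ≠ tr S D i := fun i => by
    obtain ⟨x, y, z, _⟩ := two_lt_card_iff.1 h
    grind
  choose x x1 x2 x3 using this
  refine card_le_card_of_injOn (fun i => if tr S D (tr S D i) = i ∧ i < tr S D i then
    {i, tr S D i, x i} else {i, tr S D i}) (fun i hi => ?_) fun i hi j hj e => ?_
  · have a := tr_ne d c hi
    have b := tr_mem (S := S) hi
    have := x1 i; have := x2 i; have := x3 i
    simp only [bad, coe_filter, mem_powerset, Set.mem_ofPred]
    split_ifs with k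
    · have c2 : 2 ≤ #{i, tr S D i, x i} := one_lt_card.2 ⟨i, by simp, tr S D i, by simp, a.symm⟩
      refine ⟨by grind, c2, ?_⟩
      have := tr_ne d c2 (i := i) (by simp)
      have := tr_ne d c2 (i := tr S D i) (by simp)
      have := tr_mem (S := S) (I := {i, tr S D i, x i}) (i := i) (by simp)
      have := tr_mem (S := S) (I := {i, tr S D i, x i}) (i := tr S D i) (by simp)
      have := (tr S {i, tr S D i, x i}).injective.ne a
      by_cases q : tr S {i, tr S D i, x i} (tr S D i) = i
      · exact ⟨i, by simp, q⟩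
      · exact ⟨tr S D i, by simp, by grind⟩
    · have c2 : 2 ≤ #{i, tr S D i} := one_lt_card.2 ⟨i, by simp, tr S D i, by simp, a.symm⟩
      have := tr_ne d c2 (i := tr S D i) (by simp)
      have := tr_mem (S := S) (I := {i, tr S D i}) (i := tr S D i) (by simp)
      exact ⟨by grind, c2, i, by simp, by grind⟩
  · have := tr_ne d c hi; have := tr_ne d c hj
    have := x2 i; have := x3 i; have := x2 j; have := x3 j
    have e := Finset.ext_iff.1 e
    have := e i; have := e j; have := e (tr S D i); have := e (tr S D j)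
    have := e (x i); have := e (x j)
    grind

theorem result (n : ℕ) (S : (k : ℕ) → Perm (Fin k)) (h : ∀ k, 2 ≤ k → k ≤ n → ∀ j, S k j ≠ j) :
    cnt S n 2 ≤ cnt finRotate n 2 := by
  rw [cnt_eq h, cnt_eq cs_der]
  refine sum_le_sum fun D _ => ?_
  have := gb (S := S) (D := D); have := gb (S := finRotate) (D := D); have := bad_le (D := D) h
  omega

end Pool.Agent.Results.MP_433145_co.Max
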